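import Mathlib

/-!
# A minimally non-perfectly divisible graph with a bisimplicial vertex
-/

namespace Pool.Agent.Results.MP_090c48_co.BisimplicialMNPD

open SimpleGraph

/-- The induced subgraph `G[A]` is perfect. -/
def PerfectOn {V : Type} (G : SimpleGraph V) (A : Set V) : Prop :=
  ∀ s ⊆ A, (G.induce s).chromaticNumber = ((G.induce s).cliqueNum : ℕ∞)

/-- `(A, B)` is a good partition of the induced subgraph `G[s]`. -/
def GoodPartition {V : Type} (G : SimpleGraph V) (s A B : Set V) : Prop :=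
  A ∪ B = s ∧ Disjoint A B ∧ PerfectOn G A ∧ (G.induce B).cliqueNum < (G.induce s).cliqueNum

/-- The induced subgraph `G[t]` is perfectly divisible: every induced subgraph of `G[t]` with at
least one edge has a good partition. -/
def PerfectlyDivisibleOn {V : Type} (G : SimpleGraph V) (t : Set V) : Prop :=
  ∀ s ⊆ t, (∃ u ∈ s, ∃ v ∈ s, G.Adj u v) → ∃ A B, GoodPartition G s A B

/-- `G` is minimally non-perfectly divisible. -/
def MNPD {V : Type} (G : SimpleGraph V) : Prop :=
  ¬ PerfectlyDivisibleOn G Set.univ ∧ ∀ t : Set V, t ≠ Set.univ → PerfectlyDivisibleOn G t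

/-- `v` is bisimplicial: its neighbourhood is the union of two cliques. -/
def IsBisimplicial {V : Type} (G : SimpleGraph V) (v : V) : Prop :=
  ∃ K L : Set V, G.IsClique K ∧ G.IsClique L ∧ G.neighborSet v = K ∪ L

/-! ## Induced subgraphs of induced subgraphs -/

section Transfer

set_option linter.unusedSectionVars false

variable {V W : Type} [Finite V] [Finite W]

theorem chi_le_of_embedding {G : SimpleGraph V} {H : SimpleGraph W} (f : G ↪g H) :
    G.chromaticNumber ≤ H.chromaticNumber :=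
  SimpleGraph.chromaticNumber_le_of_forall_imp fun _ hn => hn.of_hom f.toHom

theorem omega_le_of_embedding {G : SimpleGraph V} {H : SimpleGraph W} (f : G ↪g H) :
    G.cliqueNum ≤ H.cliqueNum := by
  classical
  obtain ⟨s, hs⟩ := G.exists_isNClique_cliqueNum
  have h1 : H.IsClique ((s.map f.toEmbedding : Finset W) : Set W) := by
    intro x hx y hy hxy
    simp only [Finset.coe_map, Set.mem_image, Finset.mem_coe] at hx hy
    obtain ⟨a, ha, rfl⟩ := hx
    obtain ⟨b, hb, rfl⟩ := hy
    exact f.map_adj_iff.2 (hs.isClique ha hb (fun h => hxy (by rw [h])))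
  have h2 := SimpleGraph.IsClique.card_le_cliqueNum (tc := h1)
  rw [Finset.card_map, hs.card_eq] at h2
  exact h2

/-- the induced subgraph on `s ⊆ t`, seen in two ways -/
def ii (G : SimpleGraph V) (t : Set V) (s : Set t) :
    (G.induce t).induce s ≃g G.induce (Subtype.val '' s) where
  toFun x := ⟨x.1.1, x.1, x.2, rfl⟩
  invFun y := ⟨⟨y.1, by obtain ⟨z, _, hz⟩ := y.2; rw [← hz]; exact z.2⟩, by
    obtain ⟨z, hz, hz'⟩ := y.2
    have : (⟨y.1, by rw [← hz']; exact z.2⟩ : t) = z := Subtype.ext hz'.symm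
    rw [this]; exact hz⟩
  left_inv x := rfl
  right_inv y := rfl
  map_rel_iff' := Iff.rfl

theorem chi_ii (G : SimpleGraph V) (t : Set V) (s : Set t) :
    ((G.induce t).induce s).chromaticNumber = (G.induce (Subtype.val '' s)).chromaticNumber :=
  le_antisymm (chi_le_of_embedding (ii G t s).toEmbedding)
    (chi_le_of_embedding (ii G t s).symm.toEmbedding)

theorem omega_ii (G : SimpleGraph V) (t : Set V) (s : Set t) :
    ((G.induce t).induce s).cliqueNum = (G.induce (Subtype.val '' s)).cliqueNum :=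
  le_antisymm (omega_le_of_embedding (ii G t s).toEmbedding)
    (omega_le_of_embedding (ii G t s).symm.toEmbedding)

theorem image_preimage {t s : Set V} (h : s ⊆ t) : Subtype.val '' (Subtype.val ⁻¹' s : Set t) = s := by
  rw [Subtype.image_preimage_coe]
  exact Set.inter_eq_self_of_subset_right h

theorem perfectOn_ii (G : SimpleGraph V) (t : Set V) (A : Set t) :
    PerfectOn (G.induce t) A ↔ PerfectOn G (Subtype.val '' A) := by
  constructor
  · intro h s hs
    have hst : s ⊆ t := fun x hx => by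
      obtain ⟨z, _, hz⟩ := hs hx
      rw [← hz]; exact z.2
    have h1 := h (Subtype.val ⁻¹' s) (fun x hx => by
      obtain ⟨z, hz, hz'⟩ := hs hx
      rwa [← Subtype.ext hz'])
    rw [chi_ii, omega_ii, image_preimage hst] at h1
    exact h1
  · intro h s hs
    rw [chi_ii, omega_ii]
    exact h _ (Set.image_mono hs)

theorem goodPartition_ii (G : SimpleGraph V) (t : Set V) (s A B : Set t)
    (h : GoodPartition G (Subtype.val '' s) (Subtype.val '' A) (Subtype.val '' B)) :
    GoodPartition (G.induce t) s A B := by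
  obtain ⟨h1, h2, h3, h4⟩ := h
  refine ⟨?_, ?_, (perfectOn_ii G t A).2 h3, ?_⟩
  · rw [← Set.image_union] at h1
    exact Set.image_injective.2 Subtype.val_injective h1
  · rw [Set.disjoint_image_iff Subtype.val_injective] at h2
    exact h2
  · rw [omega_ii, omega_ii]; exact h4

theorem goodPartition_ii' (G : SimpleGraph V) (t : Set V) (s A B : Set t)
    (h : GoodPartition (G.induce t) s A B) :
    GoodPartition G (Subtype.val '' s) (Subtype.val '' A) (Subtype.val '' B) := by
  obtain ⟨h1, h2, h3, h4⟩ := h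
  refine ⟨?_, ?_, (perfectOn_ii G t A).1 h3, ?_⟩
  · rw [← Set.image_union, h1]
  · rw [Set.disjoint_image_iff Subtype.val_injective]
    exact h2
  · rw [omega_ii, omega_ii] at h4; exact h4

theorem pd_ii (G : SimpleGraph V) (t : Set V) (r : Set t) :
    PerfectlyDivisibleOn (G.induce t) r ↔ PerfectlyDivisibleOn G (Subtype.val '' r) := by
  constructor
  · intro h s hs hedge
    have hst : s ⊆ t := fun x hx => by
      obtain ⟨z, _, hz⟩ := hs hx
      rw [← hz]; exact z.2
    obtain ⟨u, hu, v, hv, huv⟩ := hedge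
    obtain ⟨A, B, hAB⟩ := h (Subtype.val ⁻¹' s) (fun x hx => by
      obtain ⟨z, hz, hz'⟩ := hs hx
      rwa [← Subtype.ext hz']) ⟨⟨u, hst hu⟩, hu, ⟨v, hst hv⟩, hv, huv⟩
    have := goodPartition_ii' G t _ A B hAB
    rw [image_preimage hst] at this
    exact ⟨_, _, this⟩
  · intro h s hs hedge
    obtain ⟨u, hu, v, hv, huv⟩ := hedge
    obtain ⟨A, B, hAB⟩ := h (Subtype.val '' s) (Set.image_mono hs)
      ⟨u.1, ⟨u, hu, rfl⟩, v.1, ⟨v, hv, rfl⟩, huv⟩
    have hA : A ⊆ t := by
      intro x hx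
      have : x ∈ Subtype.val '' s := by rw [← hAB.1]; exact Or.inl hx
      obtain ⟨z, _, hz⟩ := this
      rw [← hz]; exact z.2
    have hB : B ⊆ t := by
      intro x hx
      have : x ∈ Subtype.val '' s := by rw [← hAB.1]; exact Or.inr hx
      obtain ⟨z, _, hz⟩ := this
      rw [← hz]; exact z.2
    refine ⟨Subtype.val ⁻¹' A, Subtype.val ⁻¹' B, goodPartition_ii G t _ _ _ ?_⟩
    rw [image_preimage hA, image_preimage hB]
    exact hAB

/-- If `G` is not perfectly divisible, but `G[X]` is, and all vertices outside `X` are bisimplicial,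
then some minimally non-perfectly divisible graph has a bisimplicial vertex. -/
theorem descend (G : SimpleGraph V) (X : Set V) (h1 : ¬ PerfectlyDivisibleOn G Set.univ)
    (h2 : PerfectlyDivisibleOn G X) (h3 : ∀ v, v ∉ X → IsBisimplicial G v) :
    ∃ t : Set V, MNPD (G.induce t) ∧ ∃ v : t, IsBisimplicial (G.induce t) v := by
  classical
  obtain ⟨t, ht, hmin⟩ := exists_minimal_of_wellFoundedLT (fun t : Set V => ¬ PerfectlyDivisibleOn G t)
    ⟨Set.univ, h1⟩
  have himg : Subtype.val '' (Set.univ : Set t) = t := by simp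
  refine ⟨t, ⟨?_, ?_⟩, ?_⟩
  · rw [pd_ii, himg]; exact ht
  · intro r hr
    rw [pd_ii]
    by_contra hcon
    have hle : Subtype.val '' r ⊆ t := by
      rintro _ ⟨z, _, rfl⟩
      exact z.2
    have := hmin hcon hle
    apply hr
    rw [Set.eq_univ_iff_forall]
    intro z
    obtain ⟨w, hw, hwz⟩ := this z.2
    rwa [← Subtype.ext hwz]
  · obtain ⟨v, hvt, hvX⟩ : ∃ v ∈ t, v ∉ X := by
      by_contra hcon
      push Not at hcon
      exact ht fun s hs he => h2 s (hs.trans hcon) he
    obtain ⟨K, L, hK, hL, hKL⟩ := h3 v hvX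
    refine ⟨⟨v, hvt⟩, Subtype.val ⁻¹' K, Subtype.val ⁻¹' L, ?_, ?_, ?_⟩
    · intro x hx y hy hxy
      exact hK hx hy (fun h => hxy (Subtype.ext h))
    · intro x hx y hy hxy
      exact hL hx hy (fun h => hxy (Subtype.ext h))
    · ext x
      have : x.1 ∈ G.neighborSet v ↔ x.1 ∈ K ∪ L := by rw [hKL]
      simpa using this

end Transfer


/-! ## Perfection of small graphs -/

section Perf

set_option linter.unusedSectionVars false

variable {V : Type} [Finite V]

theorem no_c5 (G : SimpleGraph V) {A : Set V} (h : PerfectOn G A) (a : Fin 5 → V)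
    (hA : ∀ i, a i ∈ A)
    (hadj : ∀ i j, G.Adj (a i) (a j) ↔ (j = i + 1 ∨ i = j + 1)) : False := by
  classical
  have h1 := h (Set.range a) (by rintro _ ⟨i, rfl⟩; exact hA i)
  have hω : (G.induce (Set.range a)).cliqueNum ≤ 2 := by
    obtain ⟨s, hs⟩ := (G.induce (Set.range a)).exists_isNClique_cliqueNum
    rw [← hs.card_eq]
    by_contra hcon
    push Not at hcon
    obtain ⟨⟨_, i, rfl⟩, hi, ⟨_, j, rfl⟩, hj, ⟨_, m, rfl⟩, hm, hij, him, hjm⟩ :=
      Finset.two_lt_card.1 hcon
    have a1 : G.Adj (a i) (a j) := hs.isClique hi hj hij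
    have a2 : G.Adj (a i) (a m) := hs.isClique hi hm him
    have a3 : G.Adj (a j) (a m) := hs.isClique hj hm hjm
    rw [hadj] at a1 a2 a3
    clear hi hj hm hij him hjm
    revert i j m
    decide
  have hcol : (G.induce (Set.range a)).Colorable 2 := by
    rw [← SimpleGraph.chromaticNumber_le_iff_colorable, h1]
    exact_mod_cast hω
  obtain ⟨c⟩ := hcol
  have hc : ∀ i j : Fin 5, (j = i + 1 ∨ i = j + 1) → c ⟨a i, i, rfl⟩ ≠ c ⟨a j, j, rfl⟩ := by
    intro i j hij
    apply c.valid
    exact (hadj i j).2 hij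
  have hdec : ∀ g : Fin 5 → Fin 2, ∃ i j : Fin 5, (j = i + 1 ∨ i = j + 1) ∧ g i = g j := by
    decide
  obtain ⟨i, j, h1, h2⟩ := hdec fun i => c ⟨a i, i, rfl⟩
  exact hc i j h1 h2

theorem omega_le_chi (G : SimpleGraph V) : (G.cliqueNum : ℕ∞) ≤ G.chromaticNumber := by
  classical
  obtain ⟨s, hs⟩ := G.exists_isNClique_cliqueNum
  have := hs.isClique.card_le_chromaticNumber
  rwa [hs.card_eq] at this

theorem eq_of_col_clique (G : SimpleGraph V) (s : Set V) (k : ℕ) (h1 : (G.induce s).Colorable k)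
    (K : Finset V) (hK : (K : Set V) ⊆ s) (hcl : G.IsClique (K : Set V)) (hc : K.card = k) :
    (G.induce s).chromaticNumber = ((G.induce s).cliqueNum : ℕ∞) := by
  classical
  apply le_antisymm _ (omega_le_chi _)
  have h2 : (G.induce s).chromaticNumber ≤ k :=
    SimpleGraph.chromaticNumber_le_iff_colorable.2 h1
  refine h2.trans ?_
  have h3 : (G.induce s).IsClique ((K.subtype (· ∈ s) : Finset s) : Set s) := by
    intro x hx y hy hxy
    simp only [Finset.mem_coe, Finset.mem_subtype] at hx hy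
    exact hcl hx hy (fun h => hxy (Subtype.ext h))
  have h4 := SimpleGraph.IsClique.card_le_cliqueNum (tc := h3)
  rw [Finset.card_subtype, Finset.filter_true_of_mem (fun x hx => hK (Finset.mem_coe.2 hx)), hc]
    at h4
  exact_mod_cast h4

/-- a `2`-colourable induced subgraph is perfect -/
theorem perfect_of_two (G : SimpleGraph V) (A : Set V) (c : V → Fin 2)
    (hc : ∀ u ∈ A, ∀ v ∈ A, G.Adj u v → c u ≠ c v) : PerfectOn G A := by
  classical
  intro s hs
  by_cases h1 : ∃ u ∈ s, ∃ v ∈ s, G.Adj u v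
  · obtain ⟨u, hu, v, hv, huv⟩ := h1
    refine eq_of_col_clique G s 2 ⟨SimpleGraph.Coloring.mk (fun x => c x.1) ?_⟩ {u, v} ?_ ?_
      (Finset.card_pair huv.ne)
    · intro x y hxy
      exact hc x.1 (hs x.2) y.1 (hs y.2) hxy
    · intro x hx
      simp only [Finset.coe_insert, Finset.coe_singleton, Set.mem_insert_iff,
        Set.mem_singleton_iff] at hx
      rcases hx with rfl | rfl
      · exact hu
      · exact hv
    · intro x hx y hy hxy
      simp only [Finset.coe_insert, Finset.coe_singleton, Set.mem_insert_iff,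
        Set.mem_singleton_iff] at hx hy
      rcases hx with rfl | rfl <;> rcases hy with rfl | rfl
      · exact (hxy rfl).elim
      · exact huv
      · exact huv.symm
      · exact (hxy rfl).elim
  · push Not at h1
    by_cases h2 : s.Nonempty
    · obtain ⟨u, hu⟩ := h2
      refine eq_of_col_clique G s 1 ⟨SimpleGraph.Coloring.mk (fun _ => (0 : Fin 1)) ?_⟩ {u} ?_ ?_
        (Finset.card_singleton u)
      · intro x y hxy
        exact (h1 x.1 x.2 y.1 y.2 hxy).elim
      · simpa using hu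
      · simp
    · rw [Set.not_nonempty_iff_eq_empty] at h2
      subst h2
      refine eq_of_col_clique G ∅ 0 ⟨SimpleGraph.Coloring.mk (fun x => x.2.elim) ?_⟩ ∅ ?_ ?_
        Finset.card_empty
      · intro x; exact x.2.elim
      · simp
      · simp

end Perf

/-! ## Colouring by search -/

section Search

/-- adjacency table of the graph -/
def tadj (a b : ℕ) : Bool := Nat.testBit 302211835146369689753617902204210719513934013954241313779939165376219681536189248832298315415617713916218325264746140768127700479100516014890746976041368958825492295426838 (24 * a + b)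

/-- the graph -/
def G : SimpleGraph (Fin 24) where
  Adj a b := tadj a b = true
  symm := ⟨by
    have h : ∀ a b : Fin 24, tadj a b = tadj b a := by decide +kernel
    intro a b hab
    rw [h]; exact hab⟩
  loopless := ⟨by
    have h : ∀ a : Fin 24, tadj a a = false := by decide +kernel
    intro a ha
    rw [h] at ha
    exact Bool.noConfusion ha⟩

/-- all ways to put `v` in one of the classes -/
def ext (v : Fin 24) : List (List (Fin 24)) → List (List (List (Fin 24)))
  | [] => []
  | A :: L => (if A.all fun a => !tadj v a then [(v :: A) :: L] else []) ++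
      (ext v L).map (A :: ·)

/-- search for a colouring with at most `k` colours -/
def colr (k : ℕ) : List (Fin 24) → List (List (Fin 24)) → Bool
  | [], _ => true
  | v :: vs, L => (Nat.blt L.length k && colr k vs ([v] :: L)) || (ext v L).any (colr k vs)

def Indep (A : List (Fin 24)) : Prop := ∀ a ∈ A, ∀ b ∈ A, ¬ G.Adj a b

theorem ext_spec (v : Fin 24) : ∀ {L L' : List (List (Fin 24))}, L' ∈ ext v L →
    (∀ A ∈ L, Indep A) → L'.length = L.length ∧ (∀ A ∈ L', Indep A) ∧ (∃ A ∈ L', v ∈ A) ∧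
      ∀ A ∈ L, ∀ a ∈ A, ∃ A' ∈ L', a ∈ A'
  | [], L', h, _ => by simp [ext] at h
  | A :: L, L', h, hI => by
    simp only [ext, List.mem_append, List.mem_map] at h
    rcases h with h | ⟨L'', h, rfl⟩
    · by_cases hc : (A.all fun a => !tadj v a) = true
      · simp only [hc, if_true, List.mem_singleton] at h
        subst h
        refine ⟨rfl, ?_, ⟨_, List.mem_cons_self .., List.mem_cons_self ..⟩, ?_⟩
        · intro B hB
          rcases List.mem_cons.1 hB with rfl | hB
          · have hA := hI A (List.mem_cons_self ..)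
            have hv : ∀ a ∈ A, ¬ G.Adj v a := by
              intro a ha hadj
              have := List.all_eq_true.1 hc a ha
              have h' : tadj v a = true := hadj
              rw [h'] at this
              exact Bool.noConfusion this
            intro x hx y hy
            rcases List.mem_cons.1 hx with hx1 | hx1
            · rcases List.mem_cons.1 hy with hy1 | hy1
              · rw [hx1, hy1]; exact G.loopless.irrefl _
              · rw [hx1]; exact hv y hy1
            · rcases List.mem_cons.1 hy with hy1 | hy1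
              · rw [hy1]; exact fun h => hv x hx1 h.symm
              · exact hA x hx1 y hy1
          · exact hI B (List.mem_cons_of_mem _ hB)
        · intro B hB b hb
          rcases List.mem_cons.1 hB with rfl | hB
          · exact ⟨_, List.mem_cons_self .., List.mem_cons_of_mem _ hb⟩
          · exact ⟨B, List.mem_cons_of_mem _ hB, hb⟩
      · simp [hc] at h
    · obtain ⟨h1, h2, ⟨B, hB, hvB⟩, h3⟩ := ext_spec v h
        (fun B hB => hI B (List.mem_cons_of_mem _ hB))
      refine ⟨by simp [h1], ?_, ⟨B, List.mem_cons_of_mem _ hB, hvB⟩, ?_⟩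
      · intro C hC
        rcases List.mem_cons.1 hC with rfl | hC
        · exact hI _ (List.mem_cons_self ..)
        · exact h2 C hC
      · intro C hC c hc
        rcases List.mem_cons.1 hC with rfl | hC
        · exact ⟨_, List.mem_cons_self .., hc⟩
        · obtain ⟨C', hC', hc'⟩ := h3 C hC c hc
          exact ⟨C', List.mem_cons_of_mem _ hC', hc'⟩

theorem colr_spec (k : ℕ) : ∀ (vs : List (Fin 24)) (L : List (List (Fin 24))),
    colr k vs L = true → L.length ≤ k → (∀ A ∈ L, Indep A) →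
    ∃ L' : List (List (Fin 24)), L'.length ≤ k ∧ (∀ A ∈ L', Indep A) ∧
      (∀ v ∈ vs, ∃ A ∈ L', v ∈ A) ∧ ∀ A ∈ L, ∀ a ∈ A, ∃ A' ∈ L', a ∈ A'
  | [], L, _, h, hI => ⟨L, h, hI, by simp, fun A hA a ha => ⟨A, hA, ha⟩⟩
  | v :: vs, L, hc, h, hI => by
    simp only [colr, Bool.or_eq_true, Bool.and_eq_true, List.any_eq_true, Nat.blt_eq] at hc
    rcases hc with ⟨h1, h2⟩ | ⟨L1, h1, h2⟩
    · obtain ⟨L', a1, a2, a3, a4⟩ := colr_spec k vs ([v] :: L) h2 (by simpa using h1) (by
        intro A hA
        rcases List.mem_cons.1 hA with rfl | hA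
        · intro x hx y hy
          rw [List.mem_singleton.1 hx, List.mem_singleton.1 hy]
          exact G.loopless.irrefl _
        · exact hI A hA)
      refine ⟨L', a1, a2, ?_, fun A hA => a4 A (List.mem_cons_of_mem _ hA)⟩
      intro w hw
      rcases List.mem_cons.1 hw with rfl | hw
      · exact a4 [w] (List.mem_cons_self ..) w (List.mem_singleton.2 rfl)
      · exact a3 w hw
    · obtain ⟨e1, e2, ⟨B, hB, hvB⟩, e4⟩ := ext_spec v h1 hI
      obtain ⟨L', a1, a2, a3, a4⟩ := colr_spec k vs L1 h2 (by rw [e1]; exact h) e2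
      refine ⟨L', a1, a2, ?_, ?_⟩
      · intro w hw
        rcases List.mem_cons.1 hw with rfl | hw
        · exact a4 B hB w hvB
        · exact a3 w hw
      · intro A hA x hx
        obtain ⟨A', hA', hx'⟩ := e4 A hA x hx
        exact a4 A' hA' x hx'

theorem colour_of_colr {k : ℕ} {vs : List (Fin 24)} (h : colr k vs [] = true) :
    ∃ c : Fin 24 → ℕ, (∀ v ∈ vs, c v < k) ∧ ∀ u ∈ vs, ∀ v ∈ vs, G.Adj u v → c u ≠ c v := by
  classical
  obtain ⟨L, h1, h2, h3, -⟩ := colr_spec k vs [] h (by simp) (by simp)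
  have hidx : ∀ v ∈ vs, L.findIdx (fun A => decide (v ∈ A)) < L.length := by
    intro v hv
    obtain ⟨A, hA, hvA⟩ := h3 v hv
    exact List.findIdx_lt_length_of_exists ⟨A, hA, by simpa using hvA⟩
  refine ⟨fun v => L.findIdx (fun A => decide (v ∈ A)), fun v hv => (hidx v hv).trans_le h1, ?_⟩
  intro u hu v hv huv heq
  have e1 := List.findIdx_getElem (w := hidx u hu)
  have e2 := List.findIdx_getElem (w := hidx v hv)
  simp only [decide_eq_true_eq] at e1 e2
  have heq' : L.findIdx (fun A => decide (u ∈ A)) = L.findIdx (fun A => decide (v ∈ A)) := heq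
  have e3 : v ∈ L[L.findIdx (fun A => decide (u ∈ A))]'(hidx u hu) := by
    simp only [heq']; exact e2
  exact h2 _ (List.getElem_mem (hidx u hu)) u e1 v e3 huv

/-! ### the perfect part -/

/-- perfection of a list of vertices: every sublist has a clique of size `k` and a
`k`-colouring -/
def perf (vs : List (Fin 24)) : Bool :=
  vs.sublists.all fun S => (List.range 4).any fun k => colr k S [] &&
    (List.sublistsLen k S).any fun K => K.all fun a => K.all fun b => decide (a = b) || tadj a b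

theorem perf_spec {vs : List (Fin 24)} (hnd : vs.Nodup) (h : perf vs = true) :
    PerfectOn G {v | v ∈ vs} := by
  classical
  intro s hs
  let S := vs.filter fun v => decide (v ∈ s)
  have hS : S ∈ vs.sublists := List.mem_sublists.2 List.filter_sublist
  have h1 := List.all_eq_true.1 h S hS
  simp only [List.any_eq_true, Bool.and_eq_true, List.all_eq_true, Bool.or_eq_true,
    decide_eq_true_eq, List.mem_sublistsLen] at h1
  obtain ⟨k, -, h2, K, ⟨hK1, hK2⟩, hK3⟩ := h1
  have hmem : ∀ v, v ∈ S ↔ v ∈ s := by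
    intro v
    simp only [S, List.mem_filter, decide_eq_true_eq]
    exact ⟨fun h => h.2, fun h => ⟨hs h, h⟩⟩
  obtain ⟨c, hc1, hc2⟩ := colour_of_colr h2
  have hKnd : K.Nodup := (hnd.filter _).sublist hK1
  refine eq_of_col_clique G s k ⟨SimpleGraph.Coloring.mk
    (fun x => (⟨c x.1, hc1 x.1 ((hmem _).2 x.2)⟩ : Fin k)) ?_⟩ K.toFinset ?_ ?_ ?_
  · intro x y hxy h
    exact hc2 x.1 ((hmem _).2 x.2) y.1 ((hmem _).2 y.2) hxy (congrArg Fin.val h)
  · intro x hx
    simp only [List.coe_toFinset, Set.mem_ofPred_eq] at hx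
    exact (hmem x).1 (hK1.subset hx)
  · intro x hx y hy hxy
    simp only [List.coe_toFinset, Set.mem_ofPred_eq] at hx hy
    rcases hK3 x hx y hy with h | h
    · exact (hxy h).elim
    · exact h
  · rw [List.toFinset_card_of_nodup hKnd, hK2]

/-! ### triangle-free sets -/

def hasTri (v : Fin 24) (L : List (Fin 24)) : Bool :=
  L.any fun a => tadj v a && L.any fun b => tadj v b && tadj a b

/-- every triangle-free subset of the list is `3`-colourable -/
def tf : List (Fin 24) → List (Fin 24) → Bool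
  | [], L => colr 3 L []
  | v :: vs, L => tf vs L && (hasTri v L || tf vs (v :: L))

theorem tf_spec (s : Set (Fin 24)) (hs : ∀ a ∈ s, ∀ b ∈ s, ∀ c ∈ s, G.Adj a b → G.Adj a c →
    G.Adj b c → False) : ∀ (vs L : List (Fin 24)), tf vs L = true → (∀ a ∈ L, a ∈ s) →
    ∃ S : List (Fin 24), colr 3 S [] = true ∧ (∀ a ∈ L, a ∈ S) ∧ (∀ a ∈ S, a ∈ s) ∧
      ∀ v ∈ vs, v ∈ s → v ∈ S
  | [], L, h, hL => ⟨L, h, fun a ha => ha, hL, by simp⟩
  | v :: vs, L, h, hL => by
    simp only [tf, Bool.and_eq_true, Bool.or_eq_true] at h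
    obtain ⟨h1, h2⟩ := h
    by_cases hv : v ∈ s
    · rcases h2 with h2 | h2
      · simp only [hasTri, List.any_eq_true, Bool.and_eq_true] at h2
        obtain ⟨a, ha, hva, b, hb, hvb, hab⟩ := h2
        exact (hs v hv a (hL a ha) b (hL b hb) hva hvb hab).elim
      · obtain ⟨S, a1, a2, a3, a4⟩ := tf_spec s hs vs (v :: L) h2 (by
          intro a ha
          rcases List.mem_cons.1 ha with rfl | ha
          · exact hv
          · exact hL a ha)
        refine ⟨S, a1, fun a ha => a2 a (List.mem_cons_of_mem _ ha), a3, ?_⟩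
        intro w hw hws
        rcases List.mem_cons.1 hw with rfl | hw
        · exact a2 w (List.mem_cons_self ..)
        · exact a4 w hw hws
    · obtain ⟨S, a1, a2, a3, a4⟩ := tf_spec s hs vs L h1 hL
      refine ⟨S, a1, a2, a3, ?_⟩
      intro w hw hws
      rcases List.mem_cons.1 hw with rfl | hw
      · exact (hv hws).elim
      · exact a4 w hw hws

/-! ### no good partition -/

abbrev Row := Fin 24 × List (List (Fin 24)) × List (List (Fin 24))

def srch : List Row → ℕ → ℕ → Bool
  | [], _, _ => false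
  | (v, hs, ts) :: rows, A, B =>
    ((hs.any fun h => h.all fun w => (A ||| 2 ^ (v : ℕ)).testBit w) ||
      srch rows (A ||| 2 ^ (v : ℕ)) B) &&
    ((ts.any fun t => t.all fun w => (B ||| 2 ^ (v : ℕ)).testBit w) ||
      srch rows A (B ||| 2 ^ (v : ℕ)))

theorem srch_spec (p : Fin 24 → Prop) : ∀ (rows : List Row) (A B : ℕ), srch rows A B = true →
    (∀ w : Fin 24, A.testBit w = true → p w) → (∀ w : Fin 24, B.testBit w = true → ¬ p w) →
    (∃ r ∈ rows, ∃ h ∈ r.2.1, ∀ w ∈ h, p w) ∨ (∃ r ∈ rows, ∃ t ∈ r.2.2, ∀ w ∈ t, ¬ p w)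
  | [], _, _, h, _, _ => by simp [srch] at h
  | (v, hs, ts) :: rows, A, B, h, hA, hB => by
    simp only [srch, Bool.and_eq_true, Bool.or_eq_true] at h
    obtain ⟨h1, h2⟩ := h
    by_cases hv : p v
    · have hA' : ∀ w : Fin 24, (A ||| 2 ^ (v : ℕ)).testBit w = true → p w := by
        intro w hw
        rw [Nat.testBit_or, Bool.or_eq_true] at hw
        rcases hw with hw | hw
        · exact hA w hw
        · rw [Nat.testBit_two_pow] at hw
          have : v = w := Fin.ext (by simpa using hw)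
          exact this ▸ hv
      rcases h1 with h1 | h1
      · simp only [List.any_eq_true, List.all_eq_true] at h1
        obtain ⟨x, hx, hx'⟩ := h1
        exact Or.inl ⟨_, List.mem_cons_self .., x, hx, fun w hw => hA' w (hx' w hw)⟩
      · rcases srch_spec p rows _ _ h1 hA' hB with ⟨r, hr, h⟩ | ⟨r, hr, h⟩
        · exact Or.inl ⟨r, List.mem_cons_of_mem _ hr, h⟩
        · exact Or.inr ⟨r, List.mem_cons_of_mem _ hr, h⟩
    · have hB' : ∀ w : Fin 24, (B ||| 2 ^ (v : ℕ)).testBit w = true → ¬ p w := by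
        intro w hw
        rw [Nat.testBit_or, Bool.or_eq_true] at hw
        rcases hw with hw | hw
        · exact hB w hw
        · rw [Nat.testBit_two_pow] at hw
          have : v = w := Fin.ext (by simpa using hw)
          exact this ▸ hv
      rcases h2 with h2 | h2
      · simp only [List.any_eq_true, List.all_eq_true] at h2
        obtain ⟨x, hx, hx'⟩ := h2
        exact Or.inr ⟨_, List.mem_cons_self .., x, hx, fun w hw => hB' w (hx' w hw)⟩
      · rcases srch_spec p rows _ _ h2 hA hB' with ⟨r, hr, h⟩ | ⟨r, hr, h⟩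
        · exact Or.inl ⟨r, List.mem_cons_of_mem _ hr, h⟩
        · exact Or.inr ⟨r, List.mem_cons_of_mem _ hr, h⟩

/-- the data of the search -/
def rows : List Row :=
  [(0, [], []),
   (1, [], []),
   (2, [], [[0, 1, 2]]),
   (3, [], [[1, 2, 3]]),
   (4, [], [[0, 2, 4], [2, 3, 4]]),
   (5, [], [[1, 3, 5], [3, 4, 5]]),
   (6, [], [[2, 4, 6], [4, 5, 6]]),
   (7, [], [[3, 5, 7], [5, 6, 7]]),
   (8, [[0, 1, 3, 7, 8], [0, 1, 5, 6, 8], [0, 1, 5, 7, 8], [0, 2, 3, 7, 8]], [[0, 4, 8], [4, 6, 8], [6, 7, 8]]),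
   (9, [[0, 2, 3, 5, 9], [0, 2, 6, 5, 9], [0, 2, 6, 7, 9], [0, 4, 3, 7, 9], [0, 4, 6, 7, 9], [1, 2, 4, 8, 9], [1, 2, 6, 7, 9], [1, 2, 6, 8, 9], [1, 3, 4, 8, 9]], [[0, 1, 9], [0, 8, 9], [1, 5, 9], [5, 7, 9], [7, 8, 9]]),
   (10, [[0, 1, 10, 6, 4], [0, 4, 6, 10, 9], [1, 3, 4, 6, 10], [1, 3, 4, 8, 10], [1, 3, 7, 6, 10], [1, 5, 4, 8, 10], [1, 5, 7, 8, 10], [2, 3, 5, 9, 10], [2, 3, 7, 8, 10], [2, 3, 7, 9, 10], [2, 4, 5, 9, 10]], [[1, 2, 10], [1, 9, 10], [2, 6, 10], [6, 8, 10], [8, 9, 10]]),
   (11, [[0, 2, 11, 7, 8], [0, 4, 3, 11, 9], [1, 2, 11, 7, 5], [1, 5, 7, 11, 10], [2, 4, 5, 7, 11], [2, 4, 5, 9, 11], [2, 4, 8, 7, 11], [2, 6, 8, 9, 11], [3, 4, 6, 10, 11], [3, 4, 8, 10, 11], [3, 5, 6, 10, 11]], [[2, 3, 11], [2, 10, 11], [3, 7, 11], [7, 9, 11], [9, 10, 11]]),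
   (12, [[0, 1, 3, 12, 8], [0, 1, 10, 12, 4], [0, 2, 11, 12, 8], [2, 3, 12, 8, 6], [2, 6, 8, 12, 11], [3, 5, 6, 8, 12], [3, 5, 6, 10, 12], [3, 5, 9, 8, 12], [3, 7, 6, 10, 12], [3, 7, 9, 10, 12], [4, 5, 7, 11, 12], [4, 5, 9, 11, 12], [4, 6, 7, 11, 12]], [[3, 4, 12], [3, 11, 12], [4, 8, 12], [8, 10, 12], [10, 11, 12]]),
   (13, [[0, 1, 3, 11, 13], [0, 1, 10, 11, 13], [0, 2, 3, 5, 13], [0, 2, 3, 12, 13], [0, 2, 10, 12, 13], [0, 8, 6, 5, 13], [0, 8, 7, 5, 13], [0, 8, 10, 11, 13], [1, 2, 4, 13, 9], [1, 2, 11, 13, 5], [1, 3, 4, 13, 9], [1, 3, 12, 13, 9], [1, 5, 13, 11, 10], [2, 4, 13, 9, 10], [3, 4, 13, 9, 7], [4, 6, 7, 9, 13], [4, 6, 7, 11, 13], [4, 8, 7, 11, 13], [5, 6, 8, 12, 13], [5, 7, 8, 12, 13]], [[0, 4, 13], [0, 9, 13], [4, 5, 13], [4, 12, 13], [5, 9, 13], [9, 11, 13], [11, 12, 13]]),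
   (14, [[1, 2, 4, 12, 14], [1, 3, 4, 13, 14], [1, 3, 7, 6, 14], [1, 9, 7, 6, 14], [1, 9, 8, 6, 14], [1, 9, 11, 12, 14], [2, 3, 12, 14, 6], [2, 6, 14, 12, 11], [4, 5, 14, 10, 8], [5, 7, 11, 10, 14], [5, 9, 8, 12, 14], [6, 8, 9, 13, 14]], [[1, 5, 14], [1, 10, 14], [5, 6, 14], [5, 13, 14], [10, 12, 14], [12, 13, 14]]),
   (15, [[0, 1, 3, 11, 15], [0, 4, 3, 7, 15], [0, 4, 5, 14, 15], [0, 9, 10, 6, 15], [1, 9, 11, 15, 14], [2, 3, 5, 14, 15], [2, 4, 5, 14, 15], [2, 4, 8, 7, 15], [2, 10, 9, 7, 15], [2, 10, 12, 13, 15], [6, 10, 12, 13, 15]], [[0, 2, 15], [0, 13, 15], [2, 6, 15], [2, 11, 15], [6, 7, 15], [13, 14, 15]]),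
   (16, [[0, 9, 10, 14, 16], [4, 5, 14, 16, 8], [5, 7, 8, 16, 14]], [[0, 8, 16], [6, 8, 16], [6, 14, 16]]),
   (17, [[0, 2, 6, 7, 17], [0, 9, 5, 3, 17], [0, 9, 11, 3, 17], [1, 2, 6, 7, 17]], [[0, 1, 17], [1, 3, 17], [3, 7, 17]]),
   (18, [[0, 4, 3, 18, 15], [1, 5, 6, 15, 18], [3, 11, 13, 14, 18]], [[1, 14, 18], [14, 15, 18]]),
   (19, [[0, 9, 10, 6, 19], [1, 3, 4, 6, 19]], [[0, 1, 19], [1, 5, 19]]),
   (20, [[1, 2, 4, 8, 20], [1, 3, 4, 6, 20], [1, 5, 4, 8, 20]], [[0, 1, 20], [0, 8, 20]]),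
   (21, [[1, 2, 6, 7, 21], [1, 5, 6, 15, 21]], [[0, 15, 21]]),
   (22, [[1, 5, 4, 8, 22], [3, 5, 9, 8, 22]], [[3, 7, 22]]),
   (23, [[2, 3, 5, 14, 23]], [[4, 12, 23]])]

theorem srch_true : srch rows 0 0 = true := by decide +kernel

theorem rows_holes : (rows.all fun r => r.2.1.all fun h => decide (∀ i j : Fin 5,
    (tadj (h.getD i 0) (h.getD j 0) = true ↔ (j = i + 1 ∨ i = j + 1)) ∧
    (h.getD i 0 = h.getD j 0 → i = j) ∧ h.getD i 0 ∈ h)) = true := by
  decide +kernel

theorem rows_tris : (rows.all fun r => r.2.2.all fun t => decide (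
    tadj (t.getD 0 0) (t.getD 1 0) = true ∧ tadj (t.getD 0 0) (t.getD 2 0) = true ∧
    tadj (t.getD 1 0) (t.getD 2 0) = true ∧ t.getD 0 0 ∈ t ∧ t.getD 1 0 ∈ t ∧
    t.getD 2 0 ∈ t)) = true := by
  decide +kernel

/-- the sixteen vertices of the Paley graph minus a vertex -/
def xs : List (Fin 24) := [0, 1, 2, 3, 4, 5, 6, 7, 8, 9, 10, 11, 12, 13, 14, 15]

/-- the perfect part of a good partition of it -/
def as : List (Fin 24) := [0, 1, 2, 4, 7, 9, 10, 11, 14]

theorem perf_true : perf as = true := by decide +kernel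

theorem tf_true : tf xs [] = true := by decide +kernel

end Search


/-! ## The graph is not perfectly divisible, but its large part is -/

theorem K4free : ∀ a b : Fin 24, tadj a b = true → ∀ c : Fin 24, tadj a c = true →
    tadj b c = true → ∀ d : Fin 24, tadj a d = true → tadj b d = true → tadj c d = true →
    False := by
  decide +kernel

theorem omega_le_three (s : Set (Fin 24)) : (G.induce s).cliqueNum ≤ 3 := by
  classical
  obtain ⟨K, hK⟩ := (G.induce s).exists_isNClique_cliqueNum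
  rw [← hK.card_eq]
  by_contra hcon
  push Not at hcon
  obtain ⟨K', hK', hc⟩ := Finset.exists_subset_card_eq (s := K) (n := 4) (by omega)
  obtain ⟨a, b, c, d, hab, hac, had, hbc, hbd, hcd, rfl⟩ := Finset.card_eq_four.1 hc
  have key : ∀ x y, x ∈ ({a, b, c, d} : Finset s) → y ∈ ({a, b, c, d} : Finset s) → x ≠ y →
      tadj x.1 y.1 = true := by
    intro x y hx hy hxy
    exact hK.isClique (Finset.mem_coe.2 (hK' hx)) (Finset.mem_coe.2 (hK' hy)) hxy
  exact K4free a.1 b.1 (key a b (by simp) (by simp) hab) c.1 (key a c (by simp) (by simp) hac)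
    (key b c (by simp) (by simp) hbc) d.1 (key a d (by simp) (by simp) had)
    (key b d (by simp) (by simp) hbd) (key c d (by simp) (by simp) hcd)

/-- a clique in an induced subgraph bounds the clique number from below -/
theorem le_omega {s : Set (Fin 24)} (K : Finset (Fin 24)) (hK : (K : Set (Fin 24)) ⊆ s)
    (hcl : G.IsClique (K : Set (Fin 24))) : K.card ≤ (G.induce s).cliqueNum := by
  classical
  have h3 : (G.induce s).IsClique ((K.subtype (· ∈ s) : Finset s) : Set s) := by
    intro x hx y hy hxy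
    simp only [Finset.mem_coe, Finset.mem_subtype] at hx hy
    exact hcl hx hy (fun h => hxy (Subtype.ext h))
  have h4 := SimpleGraph.IsClique.card_le_cliqueNum (tc := h3)
  rwa [Finset.card_subtype, Finset.filter_true_of_mem (fun x hx => hK (Finset.mem_coe.2 hx))]
    at h4

theorem omega_le_two {s : Set (Fin 24)} (h : ∀ a ∈ s, ∀ b ∈ s, ∀ c ∈ s, G.Adj a b → G.Adj a c →
    G.Adj b c → False) : (G.induce s).cliqueNum ≤ 2 := by
  classical
  obtain ⟨K, hK⟩ := (G.induce s).exists_isNClique_cliqueNum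
  rw [← hK.card_eq]
  by_contra hcon
  push Not at hcon
  obtain ⟨a, ha, b, hb, c, hc, hab, hac, hbc⟩ := Finset.two_lt_card.1 hcon
  exact h a.1 a.2 b.1 b.2 c.1 c.2 (hK.isClique ha hb hab) (hK.isClique ha hc hac)
    (hK.isClique hb hc hbc)

theorem three_le {s : Set (Fin 24)} {a b c : Fin 24} (ha : a ∈ s) (hb : b ∈ s) (hc : c ∈ s)
    (hab : G.Adj a b) (hac : G.Adj a c) (hbc : G.Adj b c) : 3 ≤ (G.induce s).cliqueNum := by
  classical
  have h1 := le_omega (s := s) {a, b, c} (by
    intro x hx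
    simp only [Finset.coe_insert, Finset.coe_singleton, Set.mem_insert_iff,
      Set.mem_singleton_iff] at hx
    rcases hx with rfl | rfl | rfl
    · exact ha
    · exact hb
    · exact hc) (by
    intro x hx y hy hxy
    simp only [Finset.coe_insert, Finset.coe_singleton, Set.mem_insert_iff,
      Set.mem_singleton_iff] at hx hy
    rcases hx with rfl | rfl | rfl <;> rcases hy with rfl | rfl | rfl
    · exact (hxy rfl).elim
    · exact hab
    · exact hac
    · exact hab.symm
    · exact (hxy rfl).elim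
    · exact hbc
    · exact hac.symm
    · exact hbc.symm
    · exact (hxy rfl).elim)
  rwa [Finset.card_eq_three.2 ⟨a, b, c, hab.ne, hac.ne, hbc.ne, rfl⟩] at h1

theorem not_pd : ¬ PerfectlyDivisibleOn G Set.univ := by
  classical
  intro h
  have hedge : G.Adj 0 1 := by
    show tadj 0 1 = true
    decide +kernel
  obtain ⟨A, B, h1, h2, h3, h4⟩ := h Set.univ (le_refl _) ⟨0, trivial, 1, trivial, hedge⟩
  have hB : ∀ x, x ∉ A → x ∈ B := by
    intro x hx
    have : x ∈ A ∪ B := by rw [h1]; trivial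
    exact this.resolve_left hx
  rcases srch_spec (· ∈ A) rows 0 0 srch_true (by simp) (by simp) with
    ⟨r, hr, t, ht, hall⟩ | ⟨r, hr, t, ht, hall⟩
  · have hd := List.all_eq_true.1 (List.all_eq_true.1 rows_holes r hr) t ht
    simp only [decide_eq_true_eq] at hd
    exact no_c5 G h3 (fun i : Fin 5 => t.getD i 0)
      (fun i => hall _ (hd i i).2.2) (fun i j => (hd i j).1)
  · have hd := List.all_eq_true.1 (List.all_eq_true.1 rows_tris r hr) t ht
    simp only [decide_eq_true_eq] at hd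
    obtain ⟨d1, d2, d3, d4, d5, d6⟩ := hd
    have h5 : 3 ≤ (G.induce B).cliqueNum :=
      three_le (hB _ (hall _ d4)) (hB _ (hall _ d5)) (hB _ (hall _ d6)) d1 d2 d3
    have h6 := omega_le_three Set.univ
    omega

theorem bs_trifree : ∀ a : Fin 24, a ∈ xs → a ∉ as → ∀ b : Fin 24, b ∈ xs → b ∉ as →
    tadj a b = true → ∀ c : Fin 24, c ∈ xs → c ∉ as → tadj a c = true → tadj b c = true →
    False := by
  decide +kernel

theorem pdX : PerfectlyDivisibleOn G {v | v ∈ xs} := by
  classical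
  intro s hs hedge
  by_cases htri : ∀ a ∈ s, ∀ b ∈ s, ∀ c ∈ s, G.Adj a b → G.Adj a c → G.Adj b c → False
  · -- triangle-free
    obtain ⟨S, h1, -, h3, h4⟩ := tf_spec s htri xs [] tf_true (by simp)
    obtain ⟨c, hc1, hc2⟩ := colour_of_colr h1
    have hmem : ∀ v, v ∈ s → v ∈ S := fun v hv => h4 v (hs hv) hv
    refine ⟨{v | v ∈ s ∧ c v < 2}, {v | v ∈ s ∧ ¬ c v < 2}, ?_, ?_, ?_, ?_⟩
    · ext v
      simp only [Set.mem_union, Set.mem_ofPred_eq]
      constructor
      · rintro (h | h) <;> exact h.1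
      · intro h
        by_cases hv : c v < 2
        · exact Or.inl ⟨h, hv⟩
        · exact Or.inr ⟨h, hv⟩
    · rw [Set.disjoint_left]
      rintro v ⟨_, h1⟩ ⟨_, h2⟩
      exact h2 h1
    · apply perfect_of_two G _ (fun v => if h : c v < 2 then ⟨c v, h⟩ else 0)
      rintro u ⟨hu, hu'⟩ v ⟨hv, hv'⟩ huv heq
      simp only [hu', hv', dif_pos, Fin.mk.injEq] at heq
      exact hc2 u (hmem u hu) v (hmem v hv) huv heq
    · have hB : (G.induce {v | v ∈ s ∧ ¬ c v < 2}).cliqueNum ≤ 1 := by
        obtain ⟨K, hK⟩ := (G.induce {v | v ∈ s ∧ ¬ c v < 2}).exists_isNClique_cliqueNum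
        rw [← hK.card_eq]
        by_contra hcon
        push Not at hcon
        obtain ⟨x, hx, y, hy, hxy⟩ := Finset.one_lt_card.1 hcon
        have hadj : G.Adj x.1 y.1 := hK.isClique hx hy hxy
        have e1 := hc1 _ (hmem _ x.2.1)
        have e2 := hc1 _ (hmem _ y.2.1)
        have e3 := x.2.2
        have e4 := y.2.2
        exact hc2 _ (hmem _ x.2.1) _ (hmem _ y.2.1) hadj (by omega)
      obtain ⟨u, hu, v, hv, huv⟩ := hedge
      have h2 := le_omega (s := s) {u, v} (by
        intro x hx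
        simp only [Finset.coe_insert, Finset.coe_singleton, Set.mem_insert_iff,
          Set.mem_singleton_iff] at hx
        rcases hx with rfl | rfl
        · exact hu
        · exact hv) (by
        intro x hx y hy hxy
        simp only [Finset.coe_insert, Finset.coe_singleton, Set.mem_insert_iff,
          Set.mem_singleton_iff] at hx hy
        rcases hx with rfl | rfl <;> rcases hy with rfl | rfl
        · exact (hxy rfl).elim
        · exact huv
        · exact huv.symm
        · exact (hxy rfl).elim)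
      rw [Finset.card_pair huv.ne] at h2
      omega
  · -- with a triangle
    push Not at htri
    obtain ⟨a, ha, b, hb, c, hc, hab, hac, hbc, -⟩ := htri
    have hP : PerfectOn G {v | v ∈ as} := perf_spec (by decide) perf_true
    refine ⟨{v | v ∈ s ∧ v ∈ as}, {v | v ∈ s ∧ v ∉ as}, ?_, ?_, ?_, ?_⟩
    · ext v
      simp only [Set.mem_union, Set.mem_ofPred_eq]
      constructor
      · rintro (h | h) <;> exact h.1
      · intro h
        by_cases hv : v ∈ as
        · exact Or.inl ⟨h, hv⟩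
        · exact Or.inr ⟨h, hv⟩
    · rw [Set.disjoint_left]
      rintro v ⟨_, h1⟩ ⟨_, h2⟩
      exact h2 h1
    · intro r hr
      exact hP r (fun x hx => (hr hx).2)
    · have h1 : (G.induce {v | v ∈ s ∧ v ∉ as}).cliqueNum ≤ 2 := by
        apply omega_le_two
        rintro x ⟨hx, hx'⟩ y ⟨hy, hy'⟩ z ⟨hz, hz'⟩ hxy hxz hyz
        exact bs_trifree x (hs hx) hx' y (hs hy) hy' hxy z (hs hz) hz' hxz hyz
      have h2 := three_le (s := s) ha hb hc hab hac hbc
      omega

/-- the neighbourhoods of the eight additional vertices -/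
def quad : List (Fin 24 × Fin 24 × Fin 24 × Fin 24) :=
  [(0, 8, 6, 14), (0, 1, 3, 7), (3, 1, 14, 15), (0, 1, 5, 6), (1, 0, 8, 6), (1, 0, 15, 7),
    (1, 3, 7, 8), (2, 4, 12, 14)]

theorem quad_spec : ∀ v : Fin 24, v ∉ xs → ∃ q ∈ quad, tadj q.1 q.2.1 = true ∧
    tadj q.2.2.1 q.2.2.2 = true ∧ ∀ w : Fin 24, (tadj v w = true ↔
      ((w = q.1 ∨ w = q.2.1) ∨ (w = q.2.2.1 ∨ w = q.2.2.2))) := by
  decide +kernel

theorem pair_clique {a b : Fin 24} (h : G.Adj a b) : G.IsClique {w | w = a ∨ w = b} := by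
  rintro x (rfl | rfl) y (rfl | rfl) hxy
  · exact (hxy rfl).elim
  · exact h
  · exact h.symm
  · exact (hxy rfl).elim

/-- There is a minimally non-perfectly divisible graph with a bisimplicial vertex. -/
theorem result : ∃ (V : Type) (_ : Fintype V) (H : SimpleGraph V),
    MNPD H ∧ ∃ v, IsBisimplicial H v := by
  classical
  obtain ⟨t, ht, v, hv⟩ := descend G {v | v ∈ xs} not_pd pdX (by
    intro v hv
    obtain ⟨q, -, h1, h2, h3⟩ := quad_spec v hv
    refine ⟨{w | w = q.1 ∨ w = q.2.1}, {w | w = q.2.2.1 ∨ w = q.2.2.2}, pair_clique h1,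
      pair_clique h2, ?_⟩
    ext w
    exact h3 w)
  exact ⟨t, inferInstance, G.induce t, ht, v, hv⟩

end Pool.Agent.Results.MP_090c48_co.BisimplicialMNPD
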